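import Pool.Agent.L7h52.NQ.Stm

/-!
# Project NQ: part LEAD (helper73 for helper52)
-/

set_option autoImplicit false

namespace Pool.Agent.L7h73.NQ

open MvPolynomial Pool.Agent.L7h52.NQ Pool.Agent.TH603.EL

/-- the tube and the polynomial `P` -/
theorem ev_tube {F : Type} [Field F] (τ s : ℝ) (v : MvPolynomial (Fin 2) F)
    (g : MvPolynomial (ZMod 3) (HK F)) :
    ev (tubeU τ s v) g = th F τ s (aeval (fun l => map (cst F) (pu v l)) g) := by
  have h : ev (tubeU τ s v) = (th F τ s).comp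
      ((aeval (fun l => map (cst F) (pu v l)) : MvPolynomial (ZMod 3) (HK F) →ₐ[HK F]
        MvPolynomial (Fin 2) (HK F)) : MvPolynomial (ZMod 3) (HK F) →+* MvPolynomial (Fin 2) (HK F)) := by
    apply MvPolynomial.ringHom_ext
    · intro c
      rw [RingHom.comp_apply]
      have h1 : ((aeval (fun l => map (cst F) (pu v l)) : MvPolynomial (ZMod 3) (HK F) →ₐ[HK F]
          MvPolynomial (Fin 2) (HK F)) : MvPolynomial (ZMod 3) (HK F) →+*
            MvPolynomial (Fin 2) (HK F)) (C c) = C c := by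
        rw [RingHom.coe_coe, ← algebraMap_eq, AlgHom.commutes]
        rfl
      rw [h1]
      unfold ev th
      rw [coe_eval₂Hom, coe_eval₂Hom, eval₂_C, eval₂_C]
    · intro l
      rw [RingHom.comp_apply]
      have h1 : ((aeval (fun l => map (cst F) (pu v l)) : MvPolynomial (ZMod 3) (HK F) →ₐ[HK F]
          MvPolynomial (Fin 2) (HK F)) : MvPolynomial (ZMod 3) (HK F) →+*
            MvPolynomial (Fin 2) (HK F)) (X l) = map (cst F) (pu v l) := by
        rw [RingHom.coe_coe, aeval_X]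
      rw [h1]
      unfold ev
      rw [coe_eval₂Hom, eval₂_X]
      rfl
  rw [h]
  rfl

theorem fin2_ext' {m m' : Fin 2 →₀ ℕ} (h0 : m 0 = m' 0) (h1 : m 1 = m' 1) : m = m' := by
  rw [Finsupp.ext_iff, Fin.forall_fin_two]
  exact ⟨h0, h1⟩

theorem bd_le_hh (e : ℕ) : bd e ≤ hh e := by
  unfold bd hh
  split_ifs <;> omega

theorem bd_le (e : ℕ) : bd e ≤ 4 * e := by
  unfold bd
  split_ifs with h1 h2
  · omega
  · omega
  · omega

/-- LEAD -/
theorem s_LEAD (hSTAR : S_STAR) (hINJ : S_INJ) (hEDGE : S_EDGE) (hTHETA : S_THETA)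
    (hMIN : S_MIN) : S_LEAD := by
  intro F _ _ τ s e g v hτ0 hτ1 hs hc hg hr hne
  obtain ⟨a0, g', hg', hr', hne', hlow, hlead⟩ := hMIN F e g v hg hr hne
  have hG := hINJ F e g' hg' hr' hne'
  obtain ⟨hdeg, hsum⟩ := hSTAR F e g' hg' hG
  obtain ⟨hE1, hE2⟩ := hEDGE F e g' v hg' hG hdeg
  set P : MvPolynomial (Fin 2) (HK F) := aeval (fun l => map (cst F) (pu v l)) g with hP
  set G : Polynomial F := pull g' with hGd
  obtain ⟨α, hα⟩ : ∃ α, α = G.natTrailingDegree := ⟨_, rfl⟩
  obtain ⟨β, hβ⟩ : ∃ β, β = 4 * e - G.natDegree := ⟨_, rfl⟩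
  rw [← hα, ← hβ] at hsum
  rw [← hβ] at hE2
  have hbd := bd_le e
  have hbh := bd_le_hh e
  have hGα : G.coeff α ≠ 0 := by
    rw [hα]
    exact Polynomial.trailingCoeff_nonzero_iff_nonzero.2 hG
  have hGβ : (aeval (pu v) g').coeff (Finsupp.single 1 β) ≠ 0 := by
    rw [hE2]
    refine mul_ne_zero (mul_ne_zero (pow_ne_zero _ (by norm_num)) ?_) (pow_ne_zero _ hc)
    exact Polynomial.leadingCoeff_ne_zero.2 hG
  rw [ev_tube, ← hP]
  obtain ⟨x, hx⟩ : ∃ x, x = th F τ s P := ⟨_, rfl⟩
  rw [← hx]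
  have hcf : ∀ (a : ℝ) (i j : ℤ), cf x a i j = ∑ m ∈ P.support,
      if (m 0 : ℤ) - (m 1 : ℤ) = i ∧ 0 ≤ j then
        ((m 1).choose j.toNat : F) *
          (P.coeff m).coeff (a - (m 0 : ℝ) * τ - (m 1 : ℝ) * (1 - τ) - (j : ℝ) * (s - 1))
      else 0 := by
    intro a i j
    rw [hx]
    exact hTHETA F τ s P a i j
  have he0 : (0 : ℝ) ≤ e := Nat.cast_nonneg e
  have hs1 : 0 < s - 1 := by linarith
  -- the exponents
  have hone : ∀ (a : ℝ) (i j : ℤ), cf x a i j ≠ 0 → 0 ≤ j ∧
      a0 + (j : ℝ) * (s - 1) + (i : ℝ) * τ ≤ a ∧ a0 + (j : ℝ) * (s - 1) + (-(i : ℝ)) * (1 - τ) ≤ a := by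
    intro a i j h
    rw [hcf] at h
    obtain ⟨m, hm, hm2⟩ := Finset.exists_ne_zero_of_sum_ne_zero h
    by_cases hcond : (m 0 : ℤ) - (m 1 : ℤ) = i ∧ 0 ≤ j
    · rw [if_pos hcond] at hm2
      have h1 := hlow m _ (right_ne_zero_of_mul hm2)
      have h2 : ((m 0 : ℕ) : ℝ) - ((m 1 : ℕ) : ℝ) = (i : ℝ) := by exact_mod_cast hcond.1
      have h3 : (0 : ℝ) ≤ ((m 1 : ℕ) : ℝ) := Nat.cast_nonneg _
      have h4 : (0 : ℝ) ≤ ((m 0 : ℕ) : ℝ) := Nat.cast_nonneg _
      refine ⟨hcond.2, ?_, ?_⟩
      · rw [← h2]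
        nlinarith
      · rw [← h2]
        nlinarith
    · rw [if_neg hcond] at hm2
      exact absurd rfl hm2
  -- the first edge
  have htwo : cf x (a0 + α * τ) α 0 ≠ 0 := by
    have h1 : cf x (a0 + α * τ) α 0 = G.coeff α := by
      rw [hcf, Finset.sum_eq_single (Finsupp.single 0 α)]
      · have e0 : (Finsupp.single (0 : Fin 2) α) 0 = α := Finsupp.single_eq_same
        have e1 : (Finsupp.single (0 : Fin 2) α) 1 = 0 := by
          rw [Finsupp.single_apply, if_neg (by decide)]
        rw [e0, e1, if_pos (by constructor <;> simp), ← hE1, ← hlead]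
        simp only [Int.toNat_zero, Nat.choose_zero_right, Nat.cast_one, one_mul]
        congr 1
        push_cast
        ring
      · intro m hm hne
        by_cases hcond : (m 0 : ℤ) - (m 1 : ℤ) = α ∧ (0 : ℤ) ≤ 0
        · rw [if_pos hcond]
          have h2 : m 1 ≠ 0 := by
            intro h3
            apply hne
            apply fin2_ext'
            · rw [Finsupp.single_eq_same]
              have := hcond.1
              rw [h3] at this
              simpa using this
            · rw [Finsupp.single_apply, if_neg (by decide), h3]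
          have h3 : (1 : ℝ) ≤ ((m 1 : ℕ) : ℝ) := by
            exact_mod_cast Nat.one_le_iff_ne_zero.2 h2
          have h4 : ((m 0 : ℕ) : ℝ) - ((m 1 : ℕ) : ℝ) = (α : ℝ) := by exact_mod_cast hcond.1
          have h5 : (P.coeff m).coeff (a0 + (α : ℝ) * τ - ((m 0 : ℕ) : ℝ) * τ -
              ((m 1 : ℕ) : ℝ) * (1 - τ) - ((0 : ℤ) : ℝ) * (s - 1)) = 0 := by
            by_contra h6
            have h7 := hlow m _ h6
            rw [← h4] at h7
            push_cast at h7
            nlinarith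
          rw [h5, mul_zero]
        · rw [if_neg hcond]
      · intro h
        rw [notMem_support_iff.1 h, HahnSeries.coeff_zero, mul_zero, ite_self]
    rw [h1]
    exact hGα
  -- the second edge
  have hthree : cf x (a0 + β * (1 - τ)) (-β) 0 ≠ 0 := by
    have h1 : cf x (a0 + β * (1 - τ)) (-β) 0 = (aeval (pu v) g').coeff (Finsupp.single 1 β) := by
      rw [hcf, Finset.sum_eq_single (Finsupp.single 1 β)]
      · have e1 : (Finsupp.single (1 : Fin 2) β) 1 = β := Finsupp.single_eq_same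
        have e0 : (Finsupp.single (1 : Fin 2) β) 0 = 0 := by
          rw [Finsupp.single_apply, if_neg (by decide)]
        rw [e0, e1, if_pos (by constructor <;> simp), ← hlead]
        simp only [Int.toNat_zero, Nat.choose_zero_right, Nat.cast_one, one_mul]
        congr 1
        push_cast
        ring
      · intro m hm hne
        by_cases hcond : (m 0 : ℤ) - (m 1 : ℤ) = -β ∧ (0 : ℤ) ≤ 0
        · rw [if_pos hcond]
          have h2 : m 0 ≠ 0 := by
            intro h3
            apply hne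
            apply fin2_ext'
            · rw [Finsupp.single_apply, if_neg (by decide), h3]
            · rw [Finsupp.single_eq_same]
              have := hcond.1
              rw [h3] at this
              push_cast at this
              omega
          have h3 : (1 : ℝ) ≤ ((m 0 : ℕ) : ℝ) := by
            exact_mod_cast Nat.one_le_iff_ne_zero.2 h2
          have h4 : ((m 0 : ℕ) : ℝ) - ((m 1 : ℕ) : ℝ) = -(β : ℝ) := by exact_mod_cast hcond.1
          have h4' : (β : ℝ) = ((m 1 : ℕ) : ℝ) - ((m 0 : ℕ) : ℝ) := by linarith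
          have h5 : (P.coeff m).coeff (a0 + (β : ℝ) * (1 - τ) - ((m 0 : ℕ) : ℝ) * τ -
              ((m 1 : ℕ) : ℝ) * (1 - τ) - ((0 : ℤ) : ℝ) * (s - 1)) = 0 := by
            by_contra h6
            have h7 := hlow m _ h6
            rw [h4'] at h7
            push_cast at h7
            nlinarith
          rw [h5, mul_zero]
        · rw [if_neg hcond]
      · intro h
        rw [notMem_support_iff.1 h, HahnSeries.coeff_zero, mul_zero, ite_self]
    rw [h1]
    exact hGβ
  have hco : ∀ (a : ℝ) (i j : ℤ), cf x a i j ≠ 0 → x.coeff a ≠ 0 := by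
    intro a i j h h2
    apply h
    unfold cf
    rw [h2]
    rfl
  have hx2 := hco _ _ _ htwo
  have hx3 := hco _ _ _ hthree
  have hx0 : x ≠ 0 := HahnSeries.ne_zero_of_coeff_ne_zero hx2
  have ho2 : x.order ≤ a0 + α * τ := HahnSeries.order_le_of_coeff_ne_zero hx2
  have ho3 : x.order ≤ a0 + β * (1 - τ) := HahnSeries.order_le_of_coeff_ne_zero hx3
  refine ⟨x.order, fun c hc => HahnSeries.coeff_eq_zero_of_lt_order hc,
    fun h => hx0 (HahnSeries.coeff_order_eq_zero.mp h), ?_⟩
  intro i j hij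
  obtain ⟨hj0, hi1, hi2⟩ := hone _ _ _ hij
  have hsum' : (α : ℝ) + β ≤ bd e := by exact_mod_cast hsum
  have hbd' : (bd e : ℝ) ≤ 4 * e := by exact_mod_cast hbd
  have hbh' : (bd e : ℝ) ≤ hh e := by exact_mod_cast hbh
  have hα0 : (0 : ℝ) ≤ α := Nat.cast_nonneg _
  have hβ0 : (0 : ℝ) ≤ β := Nat.cast_nonneg _
  have hh0 : (0 : ℝ) ≤ hh e := Nat.cast_nonneg _
  have hj : j = 0 := by
    by_contra hj1
    have h1 : (1 : ℝ) ≤ j := by
      have : 1 ≤ j := by omega
      exact_mod_cast this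
    have h2 : (s - 1) ≤ (j : ℝ) * (s - 1) := by nlinarith
    have h3 : (α : ℝ) * τ ≤ α := by nlinarith
    have h4 : (β : ℝ) * (1 - τ) ≤ β := by nlinarith
    rcases le_or_gt 0 (i : ℝ) with h | h
    · have h5 : 0 ≤ (i : ℝ) * τ := mul_nonneg h hτ0.le
      linarith
    · have h5 : 0 ≤ (-(i : ℝ)) * (1 - τ) := mul_nonneg (by linarith) (by linarith)
      linarith
  rw [hj] at hi1 hi2
  push_cast at hi1 hi2
  refine ⟨hj, ?_, ?_⟩
  · rcases le_or_gt 0 (i : ℝ) with h | h
    · have : 0 ≤ τ * hh e := mul_nonneg hτ0.le hh0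
      linarith
    · have h1 : -(i : ℝ) ≤ β := by
        by_contra hcon
        push Not at hcon
        nlinarith
      have h2 : (α : ℝ) * τ ≤ (bd e + i) * τ := by
        apply mul_le_mul_of_nonneg_right _ hτ0.le
        linarith
      have h3 : (bd e : ℝ) * τ ≤ hh e * τ := mul_le_mul_of_nonneg_right hbh' hτ0.le
      nlinarith
  · rcases le_or_gt (i : ℝ) 0 with h | h
    · have : 0 ≤ (1 - τ) * hh e := mul_nonneg (by linarith) hh0
      linarith
    · have h1 : (i : ℝ) ≤ α := by
        by_contra hcon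
        push Not at hcon
        nlinarith
      have h2 : (β : ℝ) * (1 - τ) ≤ (bd e - i) * (1 - τ) := by
        apply mul_le_mul_of_nonneg_right _ (by linarith)
        linarith
      have h3 : (bd e : ℝ) * (1 - τ) ≤ hh e * (1 - τ) :=
        mul_le_mul_of_nonneg_right hbh' (by linarith)
      nlinarith

end Pool.Agent.L7h73.NQ
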