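import Pool.Agent.L7h52.NQ.Stm

/-!
# Project NQ: part REFL (helper73 for helper52)
-/

set_option autoImplicit false

namespace Pool.Agent.L7h73.NQ

open MvPolynomial Pool.Agent.L7h52.NQ

theorem refl_pow {R : Type*} [CommRing R] (P : Polynomial R) (hP : P.natDegree ≤ 4) (n : ℕ) :
    Polynomial.reflect (4 * n) (P ^ n) = Polynomial.reflect 4 P ^ n ∧ (P ^ n).natDegree ≤ 4 * n := by
  induction n with
  | zero => simp
  | succ n ih =>
    refine ⟨?_, ?_⟩
    · rw [pow_succ, pow_succ, Nat.mul_succ, Polynomial.reflect_mul _ _ ih.2 hP, ih.1]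
    · rw [pow_succ, Nat.mul_succ]
      exact Polynomial.natDegree_mul_le.trans (add_le_add ih.2 hP)

theorem refl_prod {R : Type*} [CommRing R] {ι : Type*} [DecidableEq ι] (P : ι → Polynomial R)
    (hP : ∀ i, (P i).natDegree ≤ 4) (n : ι → ℕ) (s : Finset ι) :
    Polynomial.reflect (4 * ∑ i ∈ s, n i) (∏ i ∈ s, P i ^ n i) =
      ∏ i ∈ s, Polynomial.reflect 4 (P i) ^ n i ∧
    (∏ i ∈ s, P i ^ n i).natDegree ≤ 4 * ∑ i ∈ s, n i := by
  induction s using Finset.induction_on with
  | empty => simp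
  | insert a s ha ih =>
    rw [Finset.sum_insert ha, Finset.prod_insert ha, Finset.prod_insert ha, mul_add]
    obtain ⟨h1, h2⟩ := refl_pow (P a) (hP a) (n a)
    refine ⟨?_, ?_⟩
    · rw [Polynomial.reflect_mul _ _ h2 ih.2, h1, ih.1]
    · exact Polynomial.natDegree_mul_le.trans (add_le_add h2 ih.2)

/-- `reflect` as an additive homomorphism -/
noncomputable def reflHom (R : Type*) [CommRing R] (N : ℕ) : Polynomial R →+ Polynomial R where
  toFun := Polynomial.reflect N
  map_zero' := Polynomial.reflect_zero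
  map_add' := fun f g => Polynomial.reflect_add f g N

theorem pt0_deg (F : Type) [Field F] (l : ZMod 3) : (pt0 F l).natDegree ≤ 4 := by
  have h : ∀ l : ZMod 3, l = 0 ∨ l = 1 ∨ l = 2 := by decide
  unfold pt0
  rcases h l with rfl | rfl | rfl
  · rw [vec_zero]
    unfold dD
    compute_degree
  · rw [vec_one]
    unfold dA
    compute_degree
  · rw [vec_two]
    unfold dB
    compute_degree

theorem pt1_eq (F : Type) [Field F] (l : ZMod 3) :
    pt1 F l = Polynomial.C 9 * Polynomial.reflect 4 (pt0 F l) := by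
  have h : ∀ l : ZMod 3, l = 0 ∨ l = 1 ∨ l = 2 := by decide
  have hr : ∀ (a0 a1 a2 a3 a4 : F), Polynomial.reflect 4 (Polynomial.C a0 +
      Polynomial.C a1 * Polynomial.X ^ 1 + Polynomial.C a2 * Polynomial.X ^ 2 +
      Polynomial.C a3 * Polynomial.X ^ 3 + Polynomial.C a4 * Polynomial.X ^ 4) =
      Polynomial.C a4 + Polynomial.C a3 * Polynomial.X ^ 1 + Polynomial.C a2 * Polynomial.X ^ 2 +
      Polynomial.C a1 * Polynomial.X ^ 3 + Polynomial.C a0 * Polynomial.X ^ 4 := by
    intro a0 a1 a2 a3 a4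
    have h0 : Polynomial.reflect 4 (Polynomial.C a0 : Polynomial F) =
        Polynomial.C a0 * Polynomial.X ^ 4 := by
      rw [Polynomial.reflect_C]
    rw [Polynomial.reflect_add, Polynomial.reflect_add, Polynomial.reflect_add,
      Polynomial.reflect_add, h0, Polynomial.reflect_C_mul_X_pow, Polynomial.reflect_C_mul_X_pow,
      Polynomial.reflect_C_mul_X_pow, Polynomial.reflect_C_mul_X_pow,
      Polynomial.revAt_le (by norm_num : 1 ≤ 4), Polynomial.revAt_le (by norm_num : 2 ≤ 4),
      Polynomial.revAt_le (by norm_num : 3 ≤ 4), Polynomial.revAt_le (le_refl 4)]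
    norm_num
    ring
  rcases h l with rfl | rfl | rfl
  · have h1 : pt0 F 0 = Polynomial.C 9 + Polynomial.C (-24) * Polynomial.X ^ 1 +
        Polynomial.C 22 * Polynomial.X ^ 2 + Polynomial.C (-8) * Polynomial.X ^ 3 +
        Polynomial.C 1 * Polynomial.X ^ 4 := by
      unfold pt0 dD
      rw [vec_zero]
      simp only [map_neg, map_ofNat, map_one]
      ring
    rw [h1, hr]
    unfold pt1 dD
    rw [vec_zero]
    simp only [map_neg, map_ofNat, map_one]
    ring
  · have h1 : pt0 F 1 = Polynomial.C 0 + Polynomial.C 1 * Polynomial.X ^ 1 +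
        Polynomial.C (-2) * Polynomial.X ^ 2 + Polynomial.C 1 * Polynomial.X ^ 3 +
        Polynomial.C 0 * Polynomial.X ^ 4 := by
      unfold pt0 dA
      rw [vec_one]
      simp only [map_neg, map_ofNat, map_one, map_zero]
      ring
    rw [h1, hr]
    unfold pt1 dA
    rw [vec_one]
    simp only [map_neg, map_ofNat, map_one, map_zero]
    ring
  · have h1 : pt0 F 2 = Polynomial.C 0 + Polynomial.C 9 * Polynomial.X ^ 1 +
        Polynomial.C (-6) * Polynomial.X ^ 2 + Polynomial.C 1 * Polynomial.X ^ 3 +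
        Polynomial.C 0 * Polynomial.X ^ 4 := by
      unfold pt0 dB
      rw [vec_two]
      simp only [map_neg, map_ofNat, map_one, map_zero]
      ring
    rw [h1, hr]
    unfold pt1 dB
    rw [vec_two]
    simp only [map_neg, map_ofNat, map_one, map_zero]
    ring

/-- REFL -/
theorem s_REFL : S_REFL := by
  intro F _ _ e g hg
  unfold pull
  have hh : ∀ f : Polynomial F, Polynomial.reflect (4 * e) f = reflHom F (4 * e) f := fun f => rfl
  rw [aeval_def, aeval_def, eval₂_eq', eval₂_eq', hh, map_sum, Finset.mul_sum]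
  refine Finset.sum_congr rfl fun d hd => ?_
  have h1 : ∑ i : ZMod 3, d i = e := by
    have h2 := hg (mem_support_iff.1 hd)
    rw [← h2, Finsupp.weight_apply, Finsupp.sum_fintype _ _ (fun _ => by simp)]
    simp
  have h2 := (refl_prod (pt0 F) (pt0_deg F) (fun i => d i) Finset.univ).1
  rw [h1] at h2
  have h3 : ∏ i : ZMod 3, pt1 F i ^ d i = Polynomial.C ((9 : F) ^ e) *
      ∏ i : ZMod 3, Polynomial.reflect 4 (pt0 F i) ^ d i := by
    rw [← h1, map_pow, ← Finset.prod_pow_eq_pow_sum, ← Finset.prod_mul_distrib]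
    exact Finset.prod_congr rfl fun i _ => by rw [pt1_eq, mul_pow]
  rw [h3]
  change _ = _ * Polynomial.reflect (4 * e) (Polynomial.C (g.coeff d) * ∏ i : ZMod 3, pt0 F i ^ d i)
  rw [Polynomial.reflect_C_mul, h2]
  change Polynomial.C (g.coeff d) * _ = _
  ring

end Pool.Agent.L7h73.NQ
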